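import Pool.Agent.T9h75.SO.Spec

/-!
# Project SO, piece nofail: the pair of a valid instance does not fail
-/

set_option autoImplicit false

namespace Pool.Agent.T9h69.SO

open Turing Computability N68a2faeb N793a5b8e Pool.Agent.H583R2
open Pool.Agent.T9h49.SC hiding found act stp st upd badN RK RN KK NN Good
open Pool.Agent.T9h21.UB Pool.Agent.T9h75.SO

theorem tm_le_Q (e : ℕ) (x : List Bool) : tm (ix e).2.2 x ≤ Q e x := by
  unfold tm Q
  refine le_trans (Nat.pow_le_pow_left ?_ _) (Nat.le_add_left _ _)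
  unfold tm
  omega

theorem lg_le_of_lt {b J : ℕ} (h : b < 2 ^ J) : lg b ≤ J := Nat.size_le.mpr h

theorem fail_congr {t : ℕ → Bool} {e m n : ℕ} {x : List Bool}
    (hm : lg (tm (ix e).2.2 x) ≤ m) (hn : lg (tm (ix e).2.2 x) ≤ n) (h : Fail e x (pr t m)) :
    Fail e x (pr t n) := by
  have h1 : yy e x (pr t m) = yy e x (pr t n) := by
    unfold yy
    rw [pr_take t hm, pr_take t hn]
  unfold Fail at h ⊢
  rwa [h1] at h

theorem nofail : S_nofail := by
  classical
  intro cd z hz hF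
  obtain ⟨J, hJ, hJz, hcd, hQ, hno⟩ := hz
  have h1 : tt cd J = false := hno J le_rfl hJ
  have hlt : tm (ix (iE z)).2.2 (iX z) < 2 ^ J := lt_of_le_of_lt (tm_le_Q _ _) hQ
  have h2 : lg (tm (ix (iE z)).2.2 (iX z)) ≤ J := lg_le_of_lt hlt
  have h3 : J ≤ lg z.length := (lt_lg.mpr hJz).le
  have h4 : Fail (iE z) (iX z) (pr (tt cd) J) := fail_congr (h2.trans h3) h2 hF
  have h5 : tt cd J = true := by
    unfold tt dec
    refine (@decide_eq_true_iff _ _).2 ?_
    rw [pfx_eq]
    refine ⟨by rw [hJ]; exact hcd, fun j hj hjo => ?_, iX z, ?_, ?_⟩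
    · rw [pr_getD (tt cd) hj]
      exact hno j hj.le (by rw [hjo, hJ])
    · rw [hJ]; exact hQ
    · rw [hJ]; exact h4
  rw [h1] at h5
  exact Bool.noConfusion h5

end Pool.Agent.T9h69.SO
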