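import Pool.Agent.T9h95.SO.Pf

/-!
# Project SO, piece orc: the bits are answers of the oracle
-/

set_option autoImplicit false

namespace Pool.Agent.T9h69.SO

open Turing Computability N68a2faeb N793a5b8e Pool.Agent.H583R2
open Pool.Agent.T9h49.SC hiding found act stp st upd badN RK RN KK NN Good
open Pool.Agent.T9h21.UB Pool.Agent.T9h75.SO
open Pool.Agent.T9h95.SO (pf_lg)

theorem OO_pow (t : ℕ → Bool) (j : ℕ) : OO t (List.replicate (2 ^ j) true) = t j := by
  classical
  unfold OO
  by_cases h : t j = true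
  · rw [h, decide_eq_true_iff]
    exact ⟨j, rfl, h⟩
  · rw [Bool.not_eq_true] at h
    rw [h, decide_eq_false_iff_not]
    rintro ⟨J, hJ, hJ'⟩
    have h1 := congrArg List.length hJ
    rw [List.length_replicate, List.length_replicate] at h1
    have h2 : j = J := Nat.pow_right_injective (le_refl 2) h1
    rw [h2, hJ'] at h
    exact Bool.noConfusion h

theorem lg_le_self (N : ℕ) : lg N ≤ N := by
  by_contra hcon
  have h2 : 2 ^ N ≤ N := lt_lg.mp (by omega)
  have := Nat.lt_two_pow_self (n := N)
  omega

/-- the query -/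
def qq (k : ℕ) (p : List Bool × List Bool) : List Bool :=
  if decide (min (2 ^ p.2.length) ((p.1.length + 2) ^ k + 1) ≤ (p.1.length + 2) ^ k) = true then
    List.replicate (min (2 ^ p.2.length) ((p.1.length + 2) ^ k + 1)) true else []

theorem pf_NN (k : ℕ) : PF (fun p : List Bool × List Bool => (p.1.length + 2) ^ k) :=
  pf_powK (PF.add (PF.length PF.fst) (PF.const 2)) k

theorem pf_qq (k : ℕ) : PF (qq k) := by
  have hN := pf_NN k
  have hm : PF (fun p : List Bool × List Bool =>
      min (2 ^ p.2.length) ((p.1.length + 2) ^ k + 1)) := pf_cexp (PF.length PF.snd) hN.succ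
  exact PF.ite (PF.le hm hN) (PF.replicate hm (PF.const true)) (PF.const [])

theorem ans_eq (t : ℕ → Bool) (k : ℕ) (v : List Bool) : ∀ n, n ≤ lg ((v.length + 2) ^ k) →
    answers (fun a => qq k (v, a)) (OO t) n = pr t n := by
  intro n
  induction n with
  | zero => intro _; rfl
  | succ n ih =>
    intro hn
    have h1 := ih (by omega)
    have h2 : 2 ^ n ≤ (v.length + 2) ^ k := lt_lg.mp (by omega)
    have h3 : qq k (v, pr t n) = List.replicate (2 ^ n) true := by
      unfold qq
      simp only [pr_length]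
      have h4 : min (2 ^ n) ((v.length + 2) ^ k + 1) = 2 ^ n := min_eq_left (by omega)
      rw [h4, if_pos (by rw [decide_eq_true_iff]; exact h2)]
    rw [answers, h1]
    show pr t n ++ [OO t (qq k (v, pr t n))] = pr t (n + 1)
    rw [h3, OO_pow]
    unfold pr
    rw [List.range_succ, List.map_append]
    rfl

theorem orc : S_orc := by
  intro t V k hV
  refine ⟨qq k, fun p => V (p.1, p.2.take (lg ((p.1.length + 2) ^ k))), (Polynomial.X + 2) ^ k,
    isPolyTimeL_of_pf (pf_qq k),
    isPolyTime_of_pf2 (hV.comp (PF.pair PF.fst (PF.take (pf_lg (pf_NN k)) PF.snd))),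
    fun x => ?_⟩
  have h1 : ((Polynomial.X + 2 : Polynomial ℕ) ^ k).eval x.length = (x.length + 2) ^ k := by simp
  rw [h1, oracleAnswers_eq]
  show V _ = V (x, (answers (fun a => qq k (x, a)) (OO t) ((x.length + 2) ^ k)).take
    (lg ((x.length + 2) ^ k)))
  rw [answers_take _ _ (lg_le_self _), ans_eq t k x _ le_rfl]

end Pool.Agent.T9h69.SO
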