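import Pool.Agent.T9h75.SO.Spec

/-!
# Project SO, piece pnp2: if `P = NP` then `NP` relative to `OO t` is `P` relative to `OO t`
-/

set_option autoImplicit false

namespace Pool.Agent.T9h69.SO

open Turing Computability N68a2faeb N793a5b8e Pool.Agent.H583R2
open Pool.Agent.T9h49.SC hiding found act stp st upd badN RK RN KK NN Good
open Pool.Agent.T9h21.UB Pool.Agent.T9h75.SO

theorem pf_of_p {L : DecisionProblem} (h : L ∈ P) : PF L := by
  obtain ⟨c, k, hk⟩ := code_of_poly h
  have h1 : PF (fun x : List Bool =>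
      ((U c (eL x) (((eL x).length + 2) ^ k)).getD []).headD false) :=
    PF.headD (PF.getD (pf_U (PF.const c) (pf_eL PF.id)
      (pf_powK (PF.add (PF.length (pf_eL PF.id)) (PF.const 2)) k))
      (PF.const [])) (PF.const false)
  refine h1.congr fun x => ?_
  have h2 := hk x (((eL x).length + 2) ^ k) (by rw [encode_list])
  rw [encode_list, Pool.Agent.T9h49.SC.encode_bool] at h2
  rw [h2, Option.getD_some]
  rfl

theorem pnp2 : S_nf → S_orc → S_pnp2 := by
  intro hnf horc t hP L hL
  obtain ⟨L', k, hL', hk⟩ := hnf t L hL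
  have h1 : PF (fun p : List Bool × List Bool => L' (eP p.1 p.2)) :=
    (pf_of_p (hP L' hL')).comp (pf_eP PF.fst PF.snd)
  have h2 := horc t (fun p : List Bool × List Bool => L' (eP p.1 p.2)) k h1
  have h3 : (fun v : List Bool => (fun p : List Bool × List Bool => L' (eP p.1 p.2))
      (v, pr t (lg ((v.length + 2) ^ k)))) = L := by
    funext v
    exact (hk v ((v.length + 2) ^ k) le_rfl).symm
  rw [h3] at h2
  exact h2

end Pool.Agent.T9h69.SO
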